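import Pool.Agent.Work.MP_d0383e_an.Main
import Pool.Agent.Work.MP_d0383e_an.Perron3

namespace Pool.Agent.Work.MP_d0383e_an.Parked.CurvatureSpeedsUp

open Pool.Agent.Work.MP_d0383e_an

/-- A three-dimensional shear flow, a Markstein number `d > 0` and a unit direction `P` with
`p₃ ≠ 0` for which the effective burning velocity exists and is strictly larger than for `d = 0`. -/
theorem result : ∃ (f : ℝ × ℝ → ℝ) (d A : ℝ) (P : E3),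
    (∃ K, LipschitzWith K f) ∧ (∀ (x y : ℝ) (m n : ℤ), f (x + m, y + n) = f (x, y)) ∧
    (∃ x y, f x ≠ f y) ∧ 0 < d ∧ 0 < A ∧ ‖P‖ = 1 ∧ P 2 ≠ 0 ∧
    ∃ H : ℝ, (∃ G, IsViscSol f A d P G) ∧
      (∀ G, IsViscSol f A d P G → HasBurningVelocity P G H) ∧
      (∃ G₀ H₀, IsViscSol f A 0 P G₀ ∧ HasBurningVelocity P G₀ H₀) ∧
      (∀ G₀ H₀, IsViscSol f A 0 P G₀ → HasBurningVelocity P G₀ H₀ → H₀ < H) := by
  obtain ⟨f, d, A, P, H, H', h1, h2, h3, h4, h5, h6, h7, h8, h9, h10⟩ := main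
  obtain ⟨G, hG, -⟩ := exists_sol h1 h2 A h4.le h7
  obtain ⟨G₀, hG₀, h0⟩ := exists_sol h1 h2 A le_rfl h7
  obtain ⟨H₀, hH₀⟩ := h0 rfl
  exact ⟨f, d, A, P, h1, h2, h3, h4, h5, h6, h7, H, ⟨G, hG⟩, h9, ⟨G₀, H₀, hG₀, hH₀⟩,
    fun G₁ H₁ a b => (h10 G₁ a H₁ b).trans_lt h8⟩

end Pool.Agent.Work.MP_d0383e_an.Parked.CurvatureSpeedsUp
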