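import Pool.Agent.Work.MP_d0383e_an.Dir.Vert

namespace Pool.Agent.Work.MP_d0383e_an.Parked.Directions

open Pool.Agent.Work.MP_d0383e_an
open scoped ContDiff

/-- For a unit direction `P` with `p₃ ≠ 0` the following are equivalent: (1) `P = ±e₃`;
(2) curvature strictly lowers the effective burning velocity in direction `P` for all data;
(3) it is false that arbitrarily weak smooth shear flows exist, for all small `d` and all `A`,
whose burning velocity in direction `P` exists and exceeds the one for `d = 0` by `c d`. -/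
theorem result (P : E3) (hP : ‖P‖ = 1) (h3 : P 2 ≠ 0) :
    List.TFAE
      [P 0 = 0 ∧ P 1 = 0,
        ∀ (f : ℝ × ℝ → ℝ) (d A : ℝ), (∃ K, LipschitzWith K f) →
          (∀ (x y : ℝ) (m n : ℤ), f (x + m, y + n) = f (x, y)) → (∃ x y, f x ≠ f y) →
          0 < d → 0 < A → ∀ (G G₀ : E3 × ℝ → ℝ) (H H₀ : ℝ),
            IsViscSol f A d P G → HasBurningVelocity P G H →
            IsViscSol f A 0 P G₀ → HasBurningVelocity P G₀ H₀ → H < H₀,
        ¬ ∀ η : ℝ, 0 < η → ∃ d₀ c : ℝ, 0 < d₀ ∧ 0 < c ∧ ∀ d A : ℝ, 0 < d → d < d₀ → 0 < A →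
          ∃ f : ℝ × ℝ → ℝ, ContDiff ℝ ∞ f ∧
            (∀ (x y : ℝ) (m n : ℤ), f (x + m, y + n) = f (x, y)) ∧ (∃ x y, f x ≠ f y) ∧
            (∀ x, |A * f x| ≤ η) ∧ ∃ H : ℝ, (∃ G, IsViscSol f A d P G) ∧
              (∀ G, IsViscSol f A d P G → HasBurningVelocity P G H) ∧
              (∃ G₀ H₀, IsViscSol f A 0 P G₀ ∧ HasBurningVelocity P G₀ H₀) ∧
              (∀ G₀ H₀, IsViscSol f A 0 P G₀ → HasBurningVelocity P G₀ H₀ → H₀ + c * d ≤ H)] := by
  tfae_have 1 → 2 := by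
    rintro ⟨h0, h1⟩ f d A ⟨K, hK⟩ hper hne hd hA G G₀ H H₀ hG hH hG₀ hH₀
    exact Dir.slowdown hK.continuous hper hne hA hd hP h0 h1 hG hH hG₀ hH₀
  tfae_have 2 → 3 := by
    intro h2 h
    obtain ⟨d₀, c, hd₀, hc, h⟩ := h 1 one_pos
    obtain ⟨f, hf, hper, hne, -, H, ⟨G, hG⟩, hH, ⟨G₀, H₀, hG₀, hH₀⟩, hle⟩ :=
      h (d₀ / 2) 1 (by positivity) (by linarith) one_pos
    have a := h2 f (d₀ / 2) 1 (lipschitz_of_per f (hf.of_le (by exact_mod_cast le_top)) hper) hper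
      hne (by positivity) one_pos G G₀ H H₀ hG (hH G hG) hG₀ hH₀
    have b := hle G₀ H₀ hG₀ hH₀
    have : 0 < c * (d₀ / 2) := by positivity
    linarith
  tfae_have 3 → 1 := by
    intro h
    by_contra hn
    refine h fun η hη => ?_
    obtain ⟨d₀, c, hd₀, hc, h⟩ := Dir.speedup hP h3 hn hη
    refine ⟨d₀, c, hd₀, hc, fun d A hd hd' hA => ?_⟩
    obtain ⟨f, hf, hper, hne, hη', hG, hG₀⟩ := h d A hd hd' hA
    have hL := lipschitz_of_per f (hf.of_le (by exact_mod_cast le_top)) hper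
    obtain ⟨G, hG1, -⟩ := exists_sol hL hper A hd.le h3
    obtain ⟨G₀, hG2, h0⟩ := exists_sol hL hper A le_rfl h3
    obtain ⟨H₀, hH₀⟩ := h0 rfl
    exact ⟨f, hf, hper, hne, hη', 1, ⟨G, hG1⟩, hG, ⟨G₀, H₀, hG2, hH₀⟩, hG₀⟩
  tfae_finish

end Pool.Agent.Work.MP_d0383e_an.Parked.Directions
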